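import Pool.Agent.H29.TC.Targets

/-!
# Thin cosets of Hecke characters: the integral of the mean square
-/

set_option autoImplicit false

open NumberField NumberField.InfinitePlace NumberField.Units
  NumberField.Units.dirichletUnitTheorem MeasureTheory Set Filter Complex
open scoped nonZeroDivisors ENNReal

namespace Pool.Agent.H96.THC

open Pool.Agent.H25.HK Pool.Agent.H28.RC Pool.Agent.H23.LB Pool.Agent.H29.TC

/-! ### the real inequality -/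

theorem real_bound (s Nk Ne κ : ℝ) (hs : 1 ≤ s) (hk : 1 ≤ Nk) (he : 1 ≤ Ne) (hek : Ne ≤ Nk)
    (hκ : 0 < κ) :
    Nk * Ne * ((Ne / (Nk / s)) ^ (-(1 + κ)) + (Ne / (Nk / s) * (Nk / s)) ^ (-(κ / 2)) *
      Real.sqrt (((Ne / (Nk / s)) ^ (-2 : ℝ) + (Ne / (Nk / s))⁻¹) *
        ((Nk / s) ^ (-2 : ℝ) + (Nk / s)⁻¹))) ≤
      3 * (s * Nk) ^ (1 + κ) * (1 + Nk / s ^ 2) := by
  have hs0 : 0 < s := by linarith
  have hk0 : 0 < Nk := by linarith
  have he0 : 0 < Ne := by linarith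
  set ρ : ℝ := Nk / s with hρ
  have hρ0 : 0 < ρ := div_pos hk0 hs0
  set m : ℝ := s * Nk with hm
  have hm1 : 1 ≤ m := by
    have := mul_le_mul hs hk zero_le_one hs0.le
    linarith
  have hm0 : 0 < m := by linarith
  have hmk : 1 ≤ m ^ κ := Real.one_le_rpow hm1 hκ.le
  have hmm : m ^ (1 + κ) = m * m ^ κ := by
    rw [Real.rpow_add hm0, Real.rpow_one]
  have hkρ : Nk * ρ = m * (Nk / s ^ 2) := by
    rw [hρ, hm]
    field_simp
  have hks : Nk * s = m := mul_comm _ _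
  -- first term
  have h1 : Nk * Ne * (Ne / ρ) ^ (-(1 + κ)) ≤ m * (Nk / s ^ 2) * m ^ κ := by
    have e1 : (Ne / ρ) ^ (-(1 + κ)) = (ρ / Ne) * (ρ / Ne) ^ κ := by
      rw [Real.rpow_neg (by positivity), ← Real.inv_rpow (by positivity), inv_div,
        Real.rpow_add (by positivity), Real.rpow_one]
    have e2 : ρ / Ne ≤ m := by
      have a1 : ρ / Ne ≤ ρ := div_le_self hρ0.le he
      have a2 : ρ ≤ Nk := div_le_self hk0.le hs
      have a3 : Nk ≤ m := by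
        rw [hm]
        nlinarith
      linarith
    have e3 : (ρ / Ne) ^ κ ≤ m ^ κ := Real.rpow_le_rpow (by positivity) e2 hκ.le
    rw [e1]
    have e4 : Nk * Ne * (ρ / Ne * (ρ / Ne) ^ κ) = Nk * ρ * (ρ / Ne) ^ κ := by
      field_simp
    rw [e4, hkρ]
    exact mul_le_mul_of_nonneg_left e3 (by positivity)
  -- second term
  have h2 : Nk * Ne * ((Ne / ρ * ρ) ^ (-(κ / 2)) *
      Real.sqrt (((Ne / ρ) ^ (-2 : ℝ) + (Ne / ρ)⁻¹) * (ρ ^ (-2 : ℝ) + ρ⁻¹))) ≤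
      (3 / 2) * m + (1 / 2) * (m * (Nk / s ^ 2)) := by
    have e1 : Ne / ρ * ρ = Ne := by field_simp
    have e2 : Ne ^ (-(κ / 2)) ≤ 1 := Real.rpow_le_one_of_one_le_of_nonpos he (by linarith)
    have e3 : Ne * Real.sqrt (((Ne / ρ) ^ (-2 : ℝ) + (Ne / ρ)⁻¹) * (ρ ^ (-2 : ℝ) + ρ⁻¹)) =
        Real.sqrt ((1 + Ne / ρ) * (1 + ρ)) := by
      have a1 : (Ne / ρ) ^ (-2 : ℝ) = (Ne / ρ)⁻¹ ^ 2 := by
        rw [Real.rpow_neg (by positivity), ← Real.inv_rpow (by positivity)]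
        norm_cast
      have a2 : ρ ^ (-2 : ℝ) = ρ⁻¹ ^ 2 := by
        rw [Real.rpow_neg (by positivity), ← Real.inv_rpow (by positivity)]
        norm_cast
      rw [a1, a2]
      nth_rewrite 1 [← Real.sqrt_sq he0.le]
      rw [← Real.sqrt_mul (by positivity)]
      congr 1
      field_simp
    have e4 : Real.sqrt ((1 + Ne / ρ) * (1 + ρ)) ≤ (2 + Ne / ρ + ρ) / 2 := by
      rw [Real.sqrt_le_left (by positivity)]
      nlinarith [sq_nonneg (Ne / ρ - ρ)]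
    have e5 : Ne / ρ ≤ s := by
      rw [div_le_iff₀ hρ0, hρ]
      have : s * (Nk / s) = Nk := by field_simp
      rw [this]
      exact hek
    rw [e1]
    calc Nk * Ne * (Ne ^ (-(κ / 2)) *
        Real.sqrt (((Ne / ρ) ^ (-2 : ℝ) + (Ne / ρ)⁻¹) * (ρ ^ (-2 : ℝ) + ρ⁻¹)))
        = Nk * (Ne ^ (-(κ / 2)) * (Ne *
        Real.sqrt (((Ne / ρ) ^ (-2 : ℝ) + (Ne / ρ)⁻¹) * (ρ ^ (-2 : ℝ) + ρ⁻¹)))) := by ring
      _ = Nk * (Ne ^ (-(κ / 2)) * Real.sqrt ((1 + Ne / ρ) * (1 + ρ))) := by rw [e3]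
      _ ≤ Nk * (1 * ((2 + Ne / ρ + ρ) / 2)) := by
          refine mul_le_mul_of_nonneg_left ?_ hk0.le
          exact mul_le_mul e2 e4 (Real.sqrt_nonneg _) zero_le_one
      _ ≤ Nk * ((3 * s + ρ) / 2) := by
          refine mul_le_mul_of_nonneg_left ?_ hk0.le
          linarith
      _ = (3 / 2) * m + (1 / 2) * (m * (Nk / s ^ 2)) := by
          rw [← hkρ, ← hks]
          ring
  have hq : 0 ≤ Nk / s ^ 2 := by positivity
  rw [hmm]
  have h3 : m ≤ m * m ^ κ := le_mul_of_one_le_right hm0.le hmk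
  have h4 : m * (Nk / s ^ 2) ≤ m * m ^ κ * (Nk / s ^ 2) :=
    mul_le_mul_of_nonneg_right h3 hq
  have h5 : 0 ≤ m * m ^ κ := by positivity
  have h6 : 0 ≤ m * m ^ κ * (Nk / s ^ 2) := by positivity
  calc _ = Nk * Ne * (Ne / ρ) ^ (-(1 + κ)) + Nk * Ne * ((Ne / ρ * ρ) ^ (-(κ / 2)) *
      Real.sqrt (((Ne / ρ) ^ (-2 : ℝ) + (Ne / ρ)⁻¹) * (ρ ^ (-2 : ℝ) + ρ⁻¹))) := by ring
    _ ≤ m * (Nk / s ^ 2) * m ^ κ + ((3 / 2) * m + (1 / 2) * (m * (Nk / s ^ 2))) :=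
        add_le_add h1 h2
    _ ≤ 3 * (m * m ^ κ) * (1 + Nk / s ^ 2) := by
        have : m * (Nk / s ^ 2) * m ^ κ = m * m ^ κ * (Nk / s ^ 2) := by ring
        rw [this]
        nlinarith

/-! ### measurability -/

section Meas

variable {K : Type} [Field K] [NumberField K]

theorem countable_K : Countable K :=
  (Module.finBasis ℚ K).equivFun.toEquiv.countable_iff.2 inferInstance

theorem cont_term (S : Finset (RP K)) (a : ℂ) (x : K) (ζ : ℂ) (z : logSpace K) :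
    Continuous (fun τ : ℝ => a * ((ws K S (yc K τ z) x : ℝ) : ℂ) *
      (cexp (ζ * S.card / 2) *
        cexp (-Real.pi * (cexp ζ * ((qK K (yc K τ z) x : ℝ) : ℂ))))) := by
  have hy : ∀ v, Continuous (fun τ : ℝ => yc K τ z v) := by
    intro v
    unfold yc
    fun_prop
  have h1 : Continuous (fun τ : ℝ => ws K S (yc K τ z) x) := by
    unfold ws
    refine continuous_finsetProd _ fun v _ => ?_
    have := hy v.1
    fun_prop
  have h2 : Continuous (fun τ : ℝ => qK K (yc K τ z) x) := by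
    unfold qK
    refine continuous_finsetSum _ fun v _ => ?_
    have := hy v
    fun_prop
  fun_prop

theorem wc_meas (hWC : T_WC) (S : Finset (RP K)) (f : Ideal (𝓞 K)) (M : FI K) (hM : M ≠ 0)
    (c : K → ℂ) (hc : ∀ x ∈ M, ‖c x‖ ≤ 1) (φ : ℝ) (hφ : |φ| < Real.pi / 2) (z : logSpace K) :
    Measurable (fun T : ℝ => Wc K S f M c φ z T) := by
  have hK : Countable K := countable_K
  have hs : ∀ y : InfinitePlace K → ℝ, Summable fun x : {x : K // x ∈ M} =>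
      c x * ((ws K S y x : ℝ) : ℂ) *
        (cexp ((φ * I) * S.card / 2) * cexp (-Real.pi * (cexp (φ * I) * ((qK K y x : ℝ) : ℂ)))) := by
    intro y
    refine Summable.of_norm ?_
    refine (hWC K S ⊤ M 0 φ (by simp) hM (FractionalIdeal.zero_mem M) hφ).1 M c (φ * I) hM hc ?_ y
    simpa using hφ
  unfold Wc tz
  refine measurable_of_tendsto_metrizable'
    (f := fun (s : Finset {x : K // x ∈ M}) (T : ℝ) => ∑ x ∈ s, c x *
      ((ws K S (yc K (Real.log (T * Real.sqrt (Nf K f) / cv K ((f : FI K) * M))) z) x : ℝ) : ℂ) *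
        (cexp ((φ * I) * S.card / 2) * cexp (-Real.pi * (cexp (φ * I) *
          ((qK K (yc K (Real.log (T * Real.sqrt (Nf K f) / cv K ((f : FI K) * M))) z) x : ℝ) : ℂ)))))
    atTop (fun s => ?_) (tendsto_pi_nhds.2 fun T => (hs _).hasSum)
  refine Finset.measurable_sum _ fun x _ => ?_
  have h1 := (cont_term S (c x) (x : K) (φ * I) z).measurable
  refine h1.comp ?_
  fun_prop

end Meas

/-! ### the Epstein zeta functions -/

section Eps

variable {K : Type} [Field K] [NumberField K]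

theorem AK_nonneg (hFP : T_FP) (κ : ℝ) (M : FI K) (hM : M ≠ 0) (z : logSpace K) :
    0 ≤ AK K κ M z := by
  unfold AK
  refine setIntegral_nonneg measurableSet_Ioi fun T hT => ?_
  have h1 := (((hFP K M hM).2.2.1 z T hT).1)
  exact mul_nonneg (by linarith) (Real.rpow_nonneg (le_of_lt hT) _)

theorem du_ne (M : FI K) (hM : M ≠ 0) : du K M ≠ 0 := by
  unfold du
  exact FractionalIdeal.dual_ne_zero ℤ ℚ hM

theorem AS_nonneg (hFP : T_FP) (κ : ℝ) (M : FI K) (hM : M ≠ 0) (z : logSpace K) :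
    0 ≤ AS K κ M z :=
  add_nonneg (AK_nonneg hFP κ M hM z) (AK_nonneg hFP κ _ (du_ne M hM) (-z))

theorem Nf_one_le (I : Ideal (𝓞 K)) (hI : I ≠ ⊥) : 1 ≤ Nf K I := by
  unfold Nf
  have : Ideal.absNorm I ≠ 0 := fun h => hI (Ideal.absNorm_eq_zero_iff.1 h)
  exact_mod_cast Nat.one_le_iff_ne_zero.2 this

theorem Nf_mul (I J : Ideal (𝓞 K)) : Nf K (I * J) = Nf K I * Nf K J := by
  unfold Nf
  rw [map_mul]
  push_cast
  rfl

theorem Nf_le (I J : Ideal (𝓞 K)) (hI : I ≠ ⊥) (h : I ≤ J) : Nf K J ≤ Nf K I := by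
  unfold Nf
  have h0 : Ideal.absNorm I ≠ 0 := fun h => hI (Ideal.absNorm_eq_zero_iff.1 h)
  exact_mod_cast Nat.le_of_dvd (Nat.pos_of_ne_zero h0) (Ideal.absNorm_dvd_absNorm_of_le h)

theorem coe_mul_ne (I : Ideal (𝓞 K)) (M : FI K) (hI : I ≠ ⊥) (hM : M ≠ 0) :
    (I : FI K) * M ≠ 0 :=
  mul_ne_zero (FractionalIdeal.coeIdeal_ne_zero.2 hI) hM

end Eps

/-! ### the integrals -/

section Ints

variable {K : Type} [Field K] [NumberField K]

open scoped Classical in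
theorem mat (hNS : T_NS) (M : FI K) (hM : M ≠ 0) (z : logSpace K) :
    ∃ (P : Matrix (mixedEmbedding.index K) (mixedEmbedding.index K) ℝ), P.PosDef ∧ P.det = 1 ∧
      (∀ T : ℝ, 0 < T → Fs P T = FT K M z T) ∧ ∀ κ : ℝ, AF κ P = AK K κ M z ∧
        AF κ P⁻¹ = AK K κ (du K M) (-z) := by
  obtain ⟨P, h1, h2, h3⟩ := hNS K M z hM
  refine ⟨P, h1, h2, fun T hT => (h3 T hT).1, fun κ => ⟨?_, ?_⟩⟩
  · unfold AF AK
    refine setIntegral_congr_fun measurableSet_Ioi fun T hT => ?_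
    simp only [(h3 T hT).1]
  · unfold AF AK
    refine setIntegral_congr_fun measurableSet_Ioi fun T hT => ?_
    simp only [(h3 T hT).2]

open scoped Classical in
theorem card_index : Fintype.card (mixedEmbedding.index K) = Module.finrank ℚ K := by
  rw [← mixedEmbedding.finrank K, Module.finrank_eq_card_basis (mixedEmbedding.stdBasis K)]

/-- the statement of `T_MT` for given constants -/
def MTc (n : ℕ) (κ B C : ℝ) : Prop :=
  ∀ (ι : Type) [Fintype ι]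
    [DecidableEq ι] (P Q : Matrix ι ι ℝ), P.PosDef → Q.PosDef → P.det = 1 → Q.det = 1 →
    Fintype.card ι = n → ∀ β β' b : ℝ, 0 < β → 0 < β' → 0 < b → b ≤ 1 →
    (IntegrableOn (fun T => (Fs P (T * b * β) - 1) * T ^ (κ / 2)) (Ioi 1) ∧
    ∫ T in Ioi (1 : ℝ), (Fs P (T * b * β) - 1) * T ^ (κ / 2) ≤
      C * b ^ (-B) * β ^ (-(1 + κ)) * AF κ P) ∧
    (IntegrableOn (fun T => (Fs P (T * b * β) - 1) * Fs Q (T * b * β') * T ^ (κ / 2))
      (Ioi 1) ∧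
    ∫ T in Ioi (1 : ℝ), (Fs P (T * b * β) - 1) * Fs Q (T * b * β') * T ^ (κ / 2) ≤
      C * b ^ (-B) * (β ^ (-(1 + κ)) + (β * β') ^ (-(κ / 2)) *
        Real.sqrt ((β ^ (-2 : ℝ) + β⁻¹) * (β' ^ (-2 : ℝ) + β'⁻¹))) *
        (AF κ P + AF κ P⁻¹ + (AF κ Q + AF κ Q⁻¹)))

theorem int_bound (hNS : T_NS) (n : ℕ) (κ B C : ℝ) (h : MTc n κ B C)
    (hn : Module.finrank ℚ K = n) (M N : FI K) (hM : M ≠ 0) (hN : N ≠ 0) (z : logSpace K)
    (β β' b : ℝ) (hβ : 0 < β) (hβ' : 0 < β') (hb : 0 < b) (hb1 : b ≤ 1) :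
    (IntegrableOn (fun T => (FT K M z (T * b * β) - 1) * T ^ (κ / 2)) (Ioi 1) ∧
    ∫ T in Ioi (1 : ℝ), (FT K M z (T * b * β) - 1) * T ^ (κ / 2) ≤
      C * b ^ (-B) * β ^ (-(1 + κ)) * AK K κ M z) ∧
    (IntegrableOn (fun T => (FT K M z (T * b * β) - 1) * FT K N z (T * b * β') * T ^ (κ / 2))
      (Ioi 1) ∧
    ∫ T in Ioi (1 : ℝ), (FT K M z (T * b * β) - 1) * FT K N z (T * b * β') * T ^ (κ / 2) ≤
      C * b ^ (-B) * (β ^ (-(1 + κ)) + (β * β') ^ (-(κ / 2)) *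
        Real.sqrt ((β ^ (-2 : ℝ) + β⁻¹) * (β' ^ (-2 : ℝ) + β'⁻¹))) *
        (AS K κ M z + AS K κ N z)) := by
  classical
  obtain ⟨P, hP1, hP2, hP3, hP4⟩ := mat hNS M hM z
  obtain ⟨Q, hQ1, hQ2, hQ3, hQ4⟩ := mat hNS N hN z
  have h1 := h (mixedEmbedding.index K) P Q hP1 hQ1 hP2 hQ2 (card_index.trans hn) β β' b hβ hβ'
    hb hb1
  rw [(hP4 κ).1, (hP4 κ).2, (hQ4 κ).1, (hQ4 κ).2] at h1
  have e1 : ∀ T ∈ Ioi (1 : ℝ), (Fs P (T * b * β) - 1) * T ^ (κ / 2) =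
      (FT K M z (T * b * β) - 1) * T ^ (κ / 2) := by
    intro T hT
    have hT0 : (0 : ℝ) < T := lt_trans zero_lt_one hT
    rw [hP3 _ (by positivity)]
  have e2 : ∀ T ∈ Ioi (1 : ℝ), (Fs P (T * b * β) - 1) * Fs Q (T * b * β') * T ^ (κ / 2) =
      (FT K M z (T * b * β) - 1) * FT K N z (T * b * β') * T ^ (κ / 2) := by
    intro T hT
    have hT0 : (0 : ℝ) < T := lt_trans zero_lt_one hT
    rw [hP3 _ (by positivity), hQ3 _ (by positivity)]
  rw [integrableOn_congr_fun e1 measurableSet_Ioi, integrableOn_congr_fun e2 measurableSet_Ioi,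
    setIntegral_congr_fun measurableSet_Ioi e1, setIntegral_congr_fun measurableSet_Ioi e2] at h1
  exact h1

end Ints

/-! ### assembly -/

theorem pf_MU (hQB : T_QB) (hMT : T_MT) (hDV : T_DV) (hDF : T_DF) (hNS : T_NS) (hFP : T_FP)
    (hWC : T_WC) : T_MU := by
  intro n hn
  obtain ⟨B, hB⟩ := hMT n hn
  set Bp : ℝ := max B 0 with hBp
  refine ⟨n + n * Bp / 2, fun κ hκ hκ1 => ?_⟩
  obtain ⟨C0, hC0⟩ := hB κ hκ hκ1
  obtain ⟨C1, hC1⟩ := hDV n κ hκ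
  refine ⟨|C0| * 4 ^ (n * Bp / 2) * (1 + 2 ^ ((n : ℝ) / 2) * (3 * C1 ^ 2)), ?_⟩
  intro K _ _ hK S l g k hG η hη M x₀ X₁ φ hM hx hX hφ z
  -- the cosine
  have hc0 : 0 < Real.cos φ := Real.cos_pos_of_mem_Ioo (abs_lt.1 hφ)
  have hc1 : Real.cos φ ≤ 1 := Real.cos_le_one φ
  set c : ℝ := Real.cos φ with hc
  set b : ℝ := (c / 4) ^ ((n : ℝ) / 2) with hb
  have hb0 : 0 < b := Real.rpow_pos_of_pos (by positivity) _
  have hb1 : b ≤ 1 := Real.rpow_le_one (by positivity) (by linarith) (by positivity)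
  set R : ℝ := |C0| * 4 ^ (n * Bp / 2) * c ^ (-(n * Bp / 2)) with hR
  have hR0 : 0 ≤ R := by positivity
  have hRb : C0 * b ^ (-B) ≤ R := by
    have a1 : b ^ (-B) ≤ b ^ (-Bp) :=
      Real.rpow_le_rpow_of_exponent_ge hb0 hb1 (neg_le_neg (le_max_left _ _))
    have a2 : b ^ (-Bp) = 4 ^ (n * Bp / 2) * c ^ (-(n * Bp / 2)) := by
      rw [hb, ← Real.rpow_mul (by positivity), Real.div_rpow hc0.le (by norm_num)]
      have e1 : (n : ℝ) / 2 * -Bp = -(n * Bp / 2) := by ring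
      rw [e1, Real.rpow_neg (by norm_num : (0 : ℝ) ≤ 4)]
      field_simp
    calc C0 * b ^ (-B) ≤ |C0| * b ^ (-B) :=
          mul_le_mul_of_nonneg_right (le_abs_self _) (Real.rpow_nonneg hb0.le _)
      _ ≤ |C0| * b ^ (-Bp) := mul_le_mul_of_nonneg_left a1 (abs_nonneg _)
      _ = R := by rw [a2, hR]; ring
  -- the norms
  have hlg : l * g ≠ ⊥ := mul_ne_zero hG.l_ne hG.g_ne
  have hk2 : k ^ 2 ≠ ⊥ := pow_ne_zero 2 hG.k_ne
  set Nk : ℝ := Nf K k with hNk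
  set Nl : ℝ := Nf K (l * g) with hNl
  have hNk1 : 1 ≤ Nk := Nf_one_le k hG.k_ne
  have hNl1 : 1 ≤ Nl := Nf_one_le _ hlg
  set s : ℝ := Real.sqrt Nl with hs
  have hs1 : 1 ≤ s := Real.one_le_sqrt.2 hNl1
  have hs2 : s ^ 2 = Nl := Real.sq_sqrt (by linarith)
  have hNf : Nf K (fk l g k) = Nl * Nk ^ 2 := by
    unfold fk
    rw [← mul_assoc, Nf_mul (l * g) (k ^ 2), pow_two, Nf_mul k k, pow_two]
  have hsf : Real.sqrt (Nf K (fk l g k)) = s * Nk := by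
    rw [hNf, Real.sqrt_mul (by linarith), Real.sqrt_sq (by linarith)]
  have hsf' : Nf K (fk l g k) = (s * Nk) ^ 2 := by
    rw [hNf, mul_pow, hs2]
  have hrho : rho K (l * g) k = Nk / s := rfl
  set m : ℝ := s * Nk with hm
  have hm1 : 1 ≤ m := by
    have := mul_le_mul hs1 hNk1 zero_le_one (by linarith)
    linarith
  have hm0 : 0 < m := by linarith
  -- the lattices
  have hMe : ∀ e ∈ dvs K k, e ≠ ⊥ ∧ 1 ≤ Nf K e ∧ Nf K e ≤ Nk := by
    intro e he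
    have h1 : k ≤ e := (hDF K k hG.k_ne e).1 he
    have h2 : e ≠ ⊥ := fun h => hG.k_ne (le_bot_iff.1 (h ▸ h1))
    exact ⟨h2, Nf_one_le e h2, Nf_le k e hG.k_ne h1⟩
  have hMk : ((k ^ 2 : Ideal (𝓞 K)) : FI K) * M ≠ 0 := coe_mul_ne _ _ hk2 hM
  have hMl : ∀ e ∈ dvs K k, ((l * g * e : Ideal (𝓞 K)) : FI K) * M ≠ 0 := fun e he =>
    coe_mul_ne _ _ (mul_ne_zero hlg (hMe e he).1) hM
  set AM : ℝ := AS K κ M z with hAM
  set Ak : ℝ := AS K κ (((k ^ 2 : Ideal (𝓞 K)) : FI K) * M) z with hAk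
  have hAM0 : 0 ≤ AM := AS_nonneg hFP κ M hM z
  have hAk0 : 0 ≤ Ak := AS_nonneg hFP κ _ hMk z
  have hAe0 : ∀ e ∈ dvs K k, 0 ≤ AS K κ (((l * g * e : Ideal (𝓞 K)) : FI K) * M) z :=
    fun e he => AS_nonneg hFP κ _ (hMl e he) z
  have hEt : Et K κ (l * g) k M z = AM + Ak +
      ∑ e ∈ dvs K k, AS K κ (((l * g * e : Ideal (𝓞 K)) : FI K) * M) z := rfl
  set d : ℝ := ((dvs K k).card : ℝ) with hd
  have hd1 : 1 ≤ d := by
    have h1 : (⊤ : Ideal (𝓞 K)) ∈ dvs K k := (hDF K k hG.k_ne ⊤).2 le_top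
    have h2 : 0 < (dvs K k).card := Finset.card_pos.2 ⟨_, h1⟩
    rw [hd]
    exact_mod_cast h2
  have hd2 : d ≤ C1 * Nk ^ κ := hC1 K hK k hG.k_ne
  -- the integrals
  have hρ0 : 0 < Nk / s := by positivity
  have hI1 := (int_bound hNS n κ B C0 hC0 hK M M hM hM z m⁻¹ m⁻¹ b (inv_pos.2 hm0)
    (inv_pos.2 hm0) hb0 hb1).1
  have hI2 : ∀ e ∈ dvs K k, _ := fun e he =>
    (int_bound hNS n κ B C0 hC0 hK (((l * g * e : Ideal (𝓞 K)) : FI K) * M)
      (((k ^ 2 : Ideal (𝓞 K)) : FI K) * M) (hMl e he) hMk z (Nf K e / (Nk / s)) (Nk / s) b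
      (div_pos (by linarith [(hMe e he).2.1]) hρ0) hρ0 hb0 hb1).2
  set F1 : ℝ → ℝ := fun T => (FT K M z (T * b * m⁻¹) - 1) * T ^ (κ / 2) with hF1
  set F2 : Ideal (𝓞 K) → ℝ → ℝ := fun e T =>
    (FT K (((l * g * e : Ideal (𝓞 K)) : FI K) * M) z (T * b * (Nf K e / (Nk / s))) - 1) *
      FT K (((k ^ 2 : Ideal (𝓞 K)) : FI K) * M) z (T * b * (Nk / s)) * T ^ (κ / 2) with hF2
  set D : ℝ := 2 ^ ((n : ℝ) / 2) * c ^ (-(n : ℝ)) * (d * Nk) with hD
  have hD0 : 0 ≤ D := by positivity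
  set F : ℝ → ℝ := fun T => (∑ r ∈ X₁,
      ‖Wc K S (fk l g k) M (cr K (l * g) M (cq (g * k ^ 2) η M x₀) r) φ z T‖ ^ 2) *
        T ^ (κ / 2) with hF
  have hF0 : ∀ T ∈ Ioi (1 : ℝ), 0 ≤ F T := by
    intro T hT
    have hT0 : (0 : ℝ) ≤ T := le_trans zero_le_one (le_of_lt hT)
    exact mul_nonneg (Finset.sum_nonneg fun r _ => by positivity) (Real.rpow_nonneg hT0 _)
  have hFG : ∀ T ∈ Ioi (1 : ℝ), F T ≤ c ^ (-(n : ℝ)) * F1 T +
      D * ∑ e ∈ dvs K k, Nf K e * F2 e T := by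
    intro T hT
    have hT0 : (0 : ℝ) < T := lt_trans zero_lt_one hT
    have h1 := hQB K S l g k hG η hη M x₀ X₁ φ hM hx hX hφ z T b hT0 (by rw [hK])
    rw [hK, hsf, hrho] at h1
    have h2 := mul_le_mul_of_nonneg_right h1 (Real.rpow_nonneg hT0.le (κ / 2))
    refine h2.trans (le_of_eq ?_)
    rw [add_mul, hF1]
    simp only [hF2]
    rw [mul_assoc (2 ^ ((n : ℝ) / 2) * c ^ (-(n : ℝ)) * _), Finset.sum_mul]
    congr 1
    · ring
    · rw [hD]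
      congr 1
      refine Finset.sum_congr rfl fun e _ => ?_
      ring
  have hGi : IntegrableOn (fun T => c ^ (-(n : ℝ)) * F1 T +
      D * ∑ e ∈ dvs K k, Nf K e * F2 e T) (Ioi 1) := by
    refine Integrable.add (Integrable.const_mul hI1.1 _) (Integrable.const_mul ?_ _)
    exact integrable_finsetSum _ fun e he => Integrable.const_mul (hI2 e he).1 _
  have hFm : AEStronglyMeasurable F (volume.restrict (Ioi 1)) := by
    refine Measurable.aestronglyMeasurable ?_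
    refine Measurable.mul (Finset.measurable_sum _ fun r _ => ?_) (by fun_prop)
    refine Measurable.pow_const (Measurable.norm ?_) 2
    refine wc_meas hWC S (fk l g k) M hM _ (fun x _ => ?_) φ hφ z
    unfold cr ci cq
    split_ifs with h1 h2
    · rw [one_mul]; exact hη.mc.norm_le _
    · simp
    · simp
    · simp
  have hFi : IntegrableOn F (Ioi 1) := by
    refine Integrable.mono' hGi hFm ?_
    refine (ae_restrict_mem measurableSet_Ioi).mono fun T hT => ?_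
    rw [Real.norm_of_nonneg (hF0 T hT)]
    exact hFG T hT
  refine ⟨hFi, ?_⟩
  have hint : ∫ T in Ioi (1 : ℝ), F T ≤ c ^ (-(n : ℝ)) * (∫ T in Ioi (1 : ℝ), F1 T) +
      D * ∑ e ∈ dvs K k, Nf K e * ∫ T in Ioi (1 : ℝ), F2 e T := by
    refine (setIntegral_mono_on hFi hGi measurableSet_Ioi hFG).trans (le_of_eq ?_)
    rw [integral_add (Integrable.const_mul hI1.1 _)
      (Integrable.const_mul (integrable_finsetSum _ fun e he =>
        Integrable.const_mul (hI2 e he).1 _) _), integral_const_mul, integral_const_mul,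
      integral_finsetSum _ fun e he => Integrable.const_mul (hI2 e he).1 _]
    congr 2
    refine Finset.sum_congr rfl fun e _ => ?_
    rw [integral_const_mul]
  refine hint.trans ?_
  -- the bounds
  set Q : ℝ := 1 + Nk / Nl with hQ
  have hQ1 : 1 ≤ Q := by
    have : 0 ≤ Nk / Nl := by positivity
    linarith
  set E : ℝ := Et K κ (l * g) k M z with hE
  have hsum0 : 0 ≤ ∑ e ∈ dvs K k, AS K κ (((l * g * e : Ideal (𝓞 K)) : FI K) * M) z :=
    Finset.sum_nonneg hAe0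
  have hE0 : 0 ≤ E := by linarith [hEt]
  have hb1' : ∫ T in Ioi (1 : ℝ), F1 T ≤ R * m ^ (1 + κ) * (Q * E) := by
    refine hI1.2.trans ?_
    have a1 : (m⁻¹) ^ (-(1 + κ)) = m ^ (1 + κ) := by
      rw [Real.rpow_neg (by positivity), ← Real.inv_rpow (by positivity), inv_inv]
    rw [a1]
    have a2 : 0 ≤ AK K κ M z := AK_nonneg hFP κ M hM z
    have a3 : AK K κ M z ≤ Q * E := by
      have b1 : AK K κ M z ≤ AM := by
        rw [hAM]
        unfold AS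
        linarith [AK_nonneg hFP κ _ (du_ne M hM) (-z)]
      have b2 : AM ≤ E := by linarith [hEt]
      have b3 : E ≤ Q * E := le_mul_of_one_le_left hE0 hQ1
      linarith
    have a4 : 0 ≤ m ^ (1 + κ) := by positivity
    calc C0 * b ^ (-B) * m ^ (1 + κ) * AK K κ M z
        ≤ R * m ^ (1 + κ) * AK K κ M z :=
          mul_le_mul_of_nonneg_right (mul_le_mul_of_nonneg_right hRb a4) a2
      _ ≤ _ := mul_le_mul_of_nonneg_left a3 (by positivity)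
  have hb2' : ∀ e ∈ dvs K k, Nk * (Nf K e * ∫ T in Ioi (1 : ℝ), F2 e T) ≤
      R * (3 * m ^ (1 + κ) * Q) *
        (AS K κ (((l * g * e : Ideal (𝓞 K)) : FI K) * M) z + Ak) := by
    intro e he
    obtain ⟨e1, e2, e3⟩ := hMe e he
    have a1 := (hI2 e he).2
    have a2 := real_bound s Nk (Nf K e) κ hs1 hNk1 e2 e3 hκ
    rw [hs2] at a2
    set X : ℝ := (Nf K e / (Nk / s)) ^ (-(1 + κ)) + (Nf K e / (Nk / s) * (Nk / s)) ^ (-(κ / 2)) *
      Real.sqrt (((Nf K e / (Nk / s)) ^ (-2 : ℝ) + (Nf K e / (Nk / s))⁻¹) *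
        ((Nk / s) ^ (-2 : ℝ) + (Nk / s)⁻¹)) with hX
    have hX0 : 0 ≤ X := by
      have : 0 < Nf K e := by linarith
      positivity
    have hA0 : 0 ≤ AS K κ (((l * g * e : Ideal (𝓞 K)) : FI K) * M) z + Ak :=
      add_nonneg (hAe0 e he) hAk0
    have hNe0 : 0 ≤ Nf K e := by linarith
    calc Nk * (Nf K e * ∫ T in Ioi (1 : ℝ), F2 e T)
        ≤ Nk * (Nf K e * (C0 * b ^ (-B) * X *
          (AS K κ (((l * g * e : Ideal (𝓞 K)) : FI K) * M) z + Ak))) :=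
          mul_le_mul_of_nonneg_left (mul_le_mul_of_nonneg_left a1 hNe0) (by linarith)
      _ = (C0 * b ^ (-B)) * (Nk * Nf K e * X) *
          (AS K κ (((l * g * e : Ideal (𝓞 K)) : FI K) * M) z + Ak) := by ring
      _ ≤ R * (Nk * Nf K e * X) *
          (AS K κ (((l * g * e : Ideal (𝓞 K)) : FI K) * M) z + Ak) :=
          mul_le_mul_of_nonneg_right (mul_le_mul_of_nonneg_right hRb (by positivity)) hA0
      _ ≤ R * (3 * m ^ (1 + κ) * Q) *
          (AS K κ (((l * g * e : Ideal (𝓞 K)) : FI K) * M) z + Ak) :=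
          mul_le_mul_of_nonneg_right (mul_le_mul_of_nonneg_left a2 hR0) hA0
  have hb3 : ∑ e ∈ dvs K k, (AS K κ (((l * g * e : Ideal (𝓞 K)) : FI K) * M) z + Ak) ≤
      d * E := by
    rw [Finset.sum_add_distrib, Finset.sum_const, nsmul_eq_mul, hEt]
    nlinarith
  have hb4 : Nk * ∑ e ∈ dvs K k, Nf K e * ∫ T in Ioi (1 : ℝ), F2 e T ≤
      R * (3 * m ^ (1 + κ) * Q) * (d * E) := by
    rw [Finset.mul_sum]
    refine (Finset.sum_le_sum hb2').trans ?_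
    rw [← Finset.mul_sum]
    exact mul_le_mul_of_nonneg_left hb3 (by positivity)
  have hm2 : 1 ≤ m ^ (2 * κ) := Real.one_le_rpow hm1 (by positivity)
  have hdd : d * d ≤ C1 ^ 2 * m ^ (2 * κ) := by
    have a1 : d * d ≤ (C1 * Nk ^ κ) * (C1 * Nk ^ κ) :=
      mul_le_mul hd2 hd2 (by linarith) (by linarith)
    have a2 : Nk ^ κ * Nk ^ κ ≤ m ^ (2 * κ) := by
      rw [← Real.rpow_add (by linarith), ← two_mul]
      refine Real.rpow_le_rpow (by linarith) ?_ (by positivity)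
      rw [hm]
      nlinarith
    calc d * d ≤ C1 ^ 2 * (Nk ^ κ * Nk ^ κ) := by
          refine a1.trans (le_of_eq ?_)
          ring
      _ ≤ _ := mul_le_mul_of_nonneg_left a2 (sq_nonneg _)
  have hcn : 0 ≤ c ^ (-(n : ℝ)) := by positivity
  have h2n : (0 : ℝ) ≤ 2 ^ ((n : ℝ) / 2) := by positivity
  have hmκ : 0 ≤ m ^ (1 + κ) := by positivity
  have hQ0 : 0 ≤ Q := by linarith
  have key : c ^ (-(n : ℝ)) * (∫ T in Ioi (1 : ℝ), F1 T) +
      D * ∑ e ∈ dvs K k, Nf K e * ∫ T in Ioi (1 : ℝ), F2 e T ≤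
      c ^ (-(n : ℝ)) * R * (m ^ (1 + κ) * m ^ (2 * κ)) * Q * E *
        (1 + 2 ^ ((n : ℝ) / 2) * (3 * C1 ^ 2)) := by
    have t1 : c ^ (-(n : ℝ)) * (∫ T in Ioi (1 : ℝ), F1 T) ≤
        c ^ (-(n : ℝ)) * (R * m ^ (1 + κ) * (Q * E)) := mul_le_mul_of_nonneg_left hb1' hcn
    have t2 : c ^ (-(n : ℝ)) * (R * m ^ (1 + κ) * (Q * E)) ≤
        c ^ (-(n : ℝ)) * (R * m ^ (1 + κ) * (Q * E)) * m ^ (2 * κ) :=
      le_mul_of_one_le_right (by positivity) hm2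
    have t3 : D * ∑ e ∈ dvs K k, Nf K e * ∫ T in Ioi (1 : ℝ), F2 e T ≤
        2 ^ ((n : ℝ) / 2) * c ^ (-(n : ℝ)) * (R * (3 * m ^ (1 + κ) * Q) * E) * (d * d) := by
      calc D * ∑ e ∈ dvs K k, Nf K e * ∫ T in Ioi (1 : ℝ), F2 e T
          = 2 ^ ((n : ℝ) / 2) * c ^ (-(n : ℝ)) * d *
            (Nk * ∑ e ∈ dvs K k, Nf K e * ∫ T in Ioi (1 : ℝ), F2 e T) := by
            rw [hD]; ring
        _ ≤ 2 ^ ((n : ℝ) / 2) * c ^ (-(n : ℝ)) * d * (R * (3 * m ^ (1 + κ) * Q) * (d * E)) :=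
            mul_le_mul_of_nonneg_left hb4 (by positivity)
        _ = _ := by ring
    have t4 : 2 ^ ((n : ℝ) / 2) * c ^ (-(n : ℝ)) * (R * (3 * m ^ (1 + κ) * Q) * E) * (d * d) ≤
        2 ^ ((n : ℝ) / 2) * c ^ (-(n : ℝ)) * (R * (3 * m ^ (1 + κ) * Q) * E) *
          (C1 ^ 2 * m ^ (2 * κ)) :=
      mul_le_mul_of_nonneg_left hdd (by positivity)
    calc _ ≤ c ^ (-(n : ℝ)) * (R * m ^ (1 + κ) * (Q * E)) * m ^ (2 * κ) +
        2 ^ ((n : ℝ) / 2) * c ^ (-(n : ℝ)) * (R * (3 * m ^ (1 + κ) * Q) * E) *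
          (C1 ^ 2 * m ^ (2 * κ)) := add_le_add (t1.trans t2) (t3.trans t4)
      _ = _ := by ring
  refine key.trans ?_
  have hmm : m ^ (1 + κ) * m ^ (2 * κ) ≤ Nf K (fk l g k) ^ (1 / 2 + 4 * κ) := by
    rw [hsf', ← Real.rpow_add hm0, ← Real.rpow_natCast, ← Real.rpow_mul hm0.le]
    refine Real.rpow_le_rpow_of_exponent_le hm1 ?_
    push_cast
    linarith
  have hcc : c ^ (-(n : ℝ)) * c ^ (-(n * Bp / 2)) = c ^ (-((n : ℝ) + n * Bp / 2)) := by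
    rw [← Real.rpow_add hc0]
    congr 1
    ring
  calc c ^ (-(n : ℝ)) * R * (m ^ (1 + κ) * m ^ (2 * κ)) * Q * E *
        (1 + 2 ^ ((n : ℝ) / 2) * (3 * C1 ^ 2))
      ≤ c ^ (-(n : ℝ)) * R * Nf K (fk l g k) ^ (1 / 2 + 4 * κ) * Q * E *
        (1 + 2 ^ ((n : ℝ) / 2) * (3 * C1 ^ 2)) := by
        gcongr
    _ = |C0| * 4 ^ (n * Bp / 2) * (1 + 2 ^ ((n : ℝ) / 2) * (3 * C1 ^ 2)) *
        (c ^ (-(n : ℝ)) * c ^ (-(n * Bp / 2))) * Nf K (fk l g k) ^ (1 / 2 + 4 * κ) * Q * E := by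
        rw [hR]; ring
    _ = _ := by rw [hcc]

end Pool.Agent.H96.THC
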